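import Pool.Agent.H76.ND.Targets

/-!
# MP_57ddd5_pr, part D1, module NOR: restriction of near optimality
-/

namespace Pool.Agent.H86.ND

open Pool.Agent.H99.NS Pool.Agent.H22.LPP Pool.Agent.H95.INS Pool.Agent.H76.ND

theorem pf_NOR : T_NOR := by
  intro P c s r t u g hsr hrt htu h
  obtain ⟨hp, hopt⟩ := h
  have hp1 : IsPath s r g := fun x h1 h2 => hp x h1 (by omega)
  have hp2 : IsPath r t g := fun x h1 h2 => hp x (by omega) (by omega)
  have hp3 : IsPath t u g := fun x h1 h2 => hp x (by omega) h2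
  refine ⟨hp2, ?_⟩
  have a1 := P.add s r u g hsr (by omega)
  have a2 := P.add r t u g hrt htu
  have r1 : Reach (s, g s) (r, g r) := path_lip hp le_rfl hsr (by omega)
  have r2 : Reach (r, g r) (t, g t) := path_lip hp (by omega) hrt (by omega)
  have r3 : Reach (t, g t) (u, g u) := path_lip hp (by omega) htu le_rfl
  have s1 := P.sup _ _ _ r2 r3
  have s2 := P.sup _ _ _ r1 (reach_trans r2 r3)
  have l1 := P.le (s, g s) (r, g r) g hsr ⟨hp1, rfl, rfl⟩
  have l3 := P.le (t, g t) (u, g u) g htu ⟨hp3, rfl, rfl⟩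
  simp only at l1 l3
  linarith

end Pool.Agent.H86.ND
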