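import Pool.Agent.H76.ND.Targets

/-!
# MP_57ddd5_pr, part D1, module O1: the upper bound `(O1)` of the insertion lemma
-/

namespace Pool.Agent.H86.ND.O1M

open Pool.Agent.H99.NS Pool.Agent.H22.LPP Pool.Agent.H95.INS Pool.Agent.H76.ND

theorem key {s L V F τ S K0 : ℝ} (hs : 0 < s) (hL : 0 < L) (hV : 0 < V) (hF : 0 < F)
    (hVL : V ^ 2 = L * F) (hτ : 0 ≤ τ) (hτL : τ ≤ 64 * L) (hS : 0 ≤ S) (hK : 1 ≤ K0) :
    -(s / 2 * S ^ 2 / (τ + 3 / 1000 * L)) + 4 * K0 * F * (S / V) ≤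
      -(s / 2 * S ^ 2 / (τ + L / 50)) + 2000000 / s * K0 ^ 2 * F := by
  have h1 : (0 : ℝ) < τ + 3 / 1000 * L := by positivity
  have h2 : (0 : ℝ) < τ + L / 50 := by positivity
  have h3 : 41 / 10000000 / L ≤ 1 / (τ + 3 / 1000 * L) - 1 / (τ + L / 50) := by
    rw [div_sub_div _ _ h1.ne' h2.ne', div_le_div_iff₀ hL (by positivity)]
    have : (τ + 3 / 1000 * L) * (τ + L / 50) ≤ (64003 / 1000 * L) * (6402 / 100 * L) := by
      apply mul_le_mul (by linarith) (by linarith) h2.le (by positivity)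
    nlinarith [mul_pos hL hL]
  have h4 : s / 2 * S ^ 2 * (41 / 10000000 / L) ≤
      s / 2 * S ^ 2 / (τ + 3 / 1000 * L) - s / 2 * S ^ 2 / (τ + L / 50) := by
    have := mul_le_mul_of_nonneg_left h3 (by positivity : 0 ≤ s / 2 * S ^ 2)
    calc _ ≤ _ := this
      _ = _ := by ring
  have h5 : s / 2 * S ^ 2 * (41 / 10000000 / L) = s / 2 * (41 / 10000000) * (S / V) ^ 2 * F := by
    have : S ^ 2 / L = (S / V) ^ 2 * F := by
      rw [div_pow, hVL]
      field_simp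
    calc _ = s / 2 * (41 / 10000000) * (S ^ 2 / L) := by ring
      _ = _ := by rw [this]; ring
  have h6 : 0 ≤ s / 2 * (41 / 10000000) * (S / V) ^ 2 - 4 * K0 * (S / V) +
      2000000 / s * K0 ^ 2 := by
    have e : s / 2 * (41 / 10000000) * (S / V) ^ 2 - 4 * K0 * (S / V) + 2000000 / s * K0 ^ 2 =
        (41 / 20000000 * (s * (S / V)) ^ 2 - 4 * K0 * (s * (S / V)) + 2000000 * K0 ^ 2) / s := by
      field_simp
      ring
    rw [e]
    apply div_nonneg _ hs.le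
    set y := s * (S / V)
    nlinarith [sq_nonneg (y - 1000000 * K0), sq_nonneg y, sq_nonneg K0,
      sq_nonneg (y - 975000 * K0)]
  have h7 := mul_nonneg h6 hF.le
  nlinarith [h4, h5, h7]

theorem pf_O1 : T_O1 := by
  intro q hq hq1
  have hsg : 0 < sg q := by
    unfold sg
    exact div_pos (Real.sqrt_pos.2 hq) (by linarith)
  refine ⟨4 + 2000000 / sg q, by positivity, ?_⟩
  intro D k K0 ω hk hK0 hDq hn hw hf hCK hPB s t g h1 h2 h3 hp _ _
  have e1 : (256 : ℤ) * D.n = lv (k + 1) := by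
    rw [hn]
    unfold lv
    obtain ⟨j, rfl⟩ : ∃ j, k = j + 1 := ⟨k - 1, by omega⟩
    simp only [Nat.add_sub_cancel]
    ring
  have e2 : (8 : ℝ) * (D.n : ℝ) = 64 ^ k := by
    rw [hn]
    obtain ⟨j, rfl⟩ : ∃ j, k = j + 1 := ⟨k - 1, by omega⟩
    simp only [Nat.add_sub_cancel]
    push_cast
    ring
  rw [e1] at h1 h3
  obtain ⟨S, hS, hW⟩ := hPB s t g h1 h2 h3 hp
  have hS0 : 0 ≤ S := (abs_nonneg _).trans hS
  have hτ : (0 : ℝ) ≤ ((t - s : ℤ) : ℝ) := by exact_mod_cast (by omega : (0 : ℤ) ≤ t - s)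
  have hτL : ((t - s : ℤ) : ℝ) ≤ 64 * 64 ^ k := by
    have h4 : t - s ≤ 2 * lv (k + 1) := by linarith
    have h5 : (2 : ℤ) * lv (k + 1) = 64 * 64 ^ k := by
      unfold lv
      simp only [Nat.add_sub_cancel]
      ring
    rw [h5] at h4
    exact_mod_cast h4
  have hk2 : (16 ^ k : ℝ) ^ 2 = 64 ^ k * 4 ^ k := by
    rw [← pow_mul, mul_comm k 2, pow_mul, ← mul_pow]
    norm_num
  have hkey := key (S := S) (K0 := K0) hsg (by positivity : (0 : ℝ) < 64 ^ k)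
    (by positivity : (0 : ℝ) < 16 ^ k) (by positivity : (0 : ℝ) < 4 ^ k) hk2 hτ hτL hS0 hK0
  have hWe : (fwd ω).W s t g = wt ω s t g := rfl
  rw [hWe] at hW
  unfold sp
  rw [hDq, e2, hf, hw]
  push_cast at hW hkey ⊢
  set M := max |(g s : ℝ)| |(g t : ℝ)| with hM
  have hM0 : 0 ≤ M := le_max_of_le_left (abs_nonneg _)
  have hDS : sg q / 2 * ((g t : ℝ) - g s) ^ 2 / ((t : ℝ) - s + 64 ^ k / 50) ≤
      sg q / 2 * S ^ 2 / ((t : ℝ) - s + 64 ^ k / 50) := by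
    push_cast at hS hτ
    apply div_le_div_of_nonneg_right _ (by positivity)
    apply mul_le_mul_of_nonneg_left _ (by positivity)
    rw [← sq_abs]
    exact pow_le_pow_left₀ (abs_nonneg _) hS 2
  have hK2 : K0 ≤ K0 ^ 2 := by nlinarith
  have hx : 4 * K0 * 4 ^ k * (1 + M / 16 ^ k) + 2000000 / sg q * K0 ^ 2 * 4 ^ k ≤
      D.K * 4 ^ k * (1 + M / 16 ^ k) := by
    have h8 : 4 * K0 * 4 ^ k * (1 + M / 16 ^ k) + 2000000 / sg q * K0 ^ 2 * 4 ^ k ≤
        ((4 + 2000000 / sg q) * K0 ^ 2) * 4 ^ k * (1 + M / 16 ^ k) := by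
      have h9 : (0 : ℝ) ≤ M / 16 ^ k := by positivity
      have h10 : 4 * K0 * 4 ^ k * (1 + M / 16 ^ k) ≤ 4 * K0 ^ 2 * 4 ^ k * (1 + M / 16 ^ k) := by
        apply mul_le_mul_of_nonneg_right _ (by positivity)
        apply mul_le_mul_of_nonneg_right _ (by positivity)
        linarith
      have h11 : 2000000 / sg q * K0 ^ 2 * 4 ^ k ≤
          2000000 / sg q * K0 ^ 2 * 4 ^ k * (1 + M / 16 ^ k) := by
        apply le_mul_of_one_le_right (by positivity)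
        linarith
      calc _ ≤ 4 * K0 ^ 2 * 4 ^ k * (1 + M / 16 ^ k) +
            2000000 / sg q * K0 ^ 2 * 4 ^ k * (1 + M / 16 ^ k) := add_le_add h10 h11
        _ = _ := by ring
    refine h8.trans ?_
    apply mul_le_mul_of_nonneg_right _ (by positivity)
    apply mul_le_mul_of_nonneg_right hCK (by positivity)
  have hsplit : 4 * K0 * 4 ^ k * (1 + (M + S) / 16 ^ k) =
      4 * K0 * 4 ^ k * (1 + M / 16 ^ k) + 4 * K0 * 4 ^ k * (S / 16 ^ k) := by ring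
  rw [hsplit] at hW
  linarith

end Pool.Agent.H86.ND.O1M
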