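import Pool.Agent.H76.ND.Targets

/-!
# MP_57ddd5_pr, part D1, module U: upper bound for all paths in `[-lv (m+1), lv (m+1)]`
-/

namespace Pool.Agent.H86.ND

open Pool.Agent.H99.NS Pool.Agent.H22.LPP Pool.Agent.H95.INS Pool.Agent.H76.ND

theorem sg_pos' {q : ℝ} (h0 : 0 < q) (h1 : q < 1) : 0 < sg q := by
  unfold sg
  exact div_pos (Real.sqrt_pos.2 h0) (by linarith)

theorem lv_mono {i j : ℕ} (h : i ≤ j) : lv i ≤ lv j := by
  unfold lv
  have : (64 : ℤ) ^ (i - 1) ≤ 64 ^ (j - 1) := pow_le_pow_right₀ (by norm_num) (by omega)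
  linarith

theorem lv_pos (i : ℕ) : 0 < lv i := by
  unfold lv
  positivity

/-- A norm of label `i ≤ k` gives a path bound. -/
theorem PB3_of_UL {P : PS} {q K0 : ℝ} {k i : ℕ} {s t : ℤ} (hK : 0 ≤ K0) (hik : i ≤ k)
    (h : UL P q K0 k i s t) :
    PB3 P q (16 ^ k) (64 ^ i / 1000) (K0 * (101 / 100) ^ (k - i) * 4 ^ i) s t := by
  intro s' t' g h1 h2 h3 hp
  refine ⟨|((g t' - g s' : ℤ) : ℝ)|, le_rfl, ?_⟩
  have h4 := h s' t' g h1 h2 h3 hp
  unfold sp al at h4
  have e1 : ds k i = k - i := by unfold ds; omega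
  have e2 : max k i = k := by omega
  rw [e1, e2] at h4
  rw [sq_abs]
  have h5 : K0 * (101 / 100) ^ (k - i) * 4 ^ i * (1 + max |(g s' : ℝ)| |(g t' : ℝ)| / 16 ^ k) ≤
      K0 * (101 / 100) ^ (k - i) * 4 ^ i *
        (1 + (max |(g s' : ℝ)| |(g t' : ℝ)| + |((g t' - g s' : ℤ) : ℝ)|) / 16 ^ k) := by
    apply mul_le_mul_of_nonneg_left _ (by positivity)
    have : max |(g s' : ℝ)| |(g t' : ℝ)| / 16 ^ k ≤
        (max |(g s' : ℝ)| |(g t' : ℝ)| + |((g t' - g s' : ℤ) : ℝ)|) / 16 ^ k := by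
      apply div_le_div_of_nonneg_right _ (by positivity)
      linarith [abs_nonneg ((g t' - g s' : ℤ) : ℝ)]
    linarith
  linarith

/-- Path bounds are monotone. -/
theorem PB3_mono {P : PS} {q V dl dl' La La' : ℝ} {lo hi : ℤ} (hq : 0 < q) (hq1 : q < 1)
    (hV : 0 < V) (hdl : 0 < dl) (hd : dl ≤ dl') (hL : La ≤ La') (h : PB3 P q V dl La lo hi) :
    PB3 P q V dl' La' lo hi := by
  intro s t g h1 h2 h3 hp
  obtain ⟨S, hS, hW⟩ := h s t g h1 h2 h3 hp
  refine ⟨S, hS, hW.trans ?_⟩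
  have hsg := sg_pos' hq hq1
  have hS0 : 0 ≤ S := (abs_nonneg _).trans hS
  have ht : (0 : ℝ) ≤ ((t - s : ℤ) : ℝ) := by exact_mod_cast (by omega : (0 : ℤ) ≤ t - s)
  have e1 : sg q / 2 * S ^ 2 / (((t - s : ℤ) : ℝ) + dl') ≤
      sg q / 2 * S ^ 2 / (((t - s : ℤ) : ℝ) + dl) := by
    apply div_le_div_of_nonneg_left (by positivity) (by positivity) (by linarith)
  have e2 : La * (1 + (max |(g s : ℝ)| |(g t : ℝ)| + S) / V) ≤
      La' * (1 + (max |(g s : ℝ)| |(g t : ℝ)| + S) / V) := by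
    apply mul_le_mul_of_nonneg_right hL
    positivity
  linarith

theorem pf_U (h_UM3 : T_UM3) : T_U := by
  intro P q K0 a k m hq hq1 hK ha ham hmk hc hs
  induction m, ham using Nat.le_induction with
  | base =>
    have h0 := PB3_of_UL hK hmk hc
    have hm := PB3_of_UL hK hmk (hs a le_rfl le_rfl).1
    have hp := PB3_of_UL hK hmk (hs a le_rfl le_rfl).2
    have := h_UM3 P q (16 ^ k) (64 ^ a / 1000) (64 ^ a / 1000)
      (K0 * (101 / 100) ^ (k - a) * 4 ^ a) (K0 * (101 / 100) ^ (k - a) * 4 ^ a) (lv a)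
      (lv (a + 1)) hq hq1 (by positivity) (by positivity) (by positivity) (by positivity)
      (by positivity) (lv_pos a).le (lv_mono (by omega)) hm h0 hp
    refine PB3_mono hq hq1 (by positivity) (by positivity) ?_ ?_ this
    · apply le_of_eq; ring
    · have : 0 ≤ K0 * (101 / 100) ^ (k - a) * 4 ^ a := by positivity
      linarith
  | succ m ham ih =>
    have h0 := ih (by omega) (fun i h1 h2 => hs i h1 (by omega))
    have hm := PB3_of_UL hK hmk (hs (m + 1) (by omega) le_rfl).1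
    have hp := PB3_of_UL hK hmk (hs (m + 1) (by omega) le_rfl).2
    have := h_UM3 P q (16 ^ k) (3 / 1000 * 64 ^ m) (64 ^ (m + 1) / 1000)
      (4 * K0 * (101 / 100) ^ (k - m) * 4 ^ m) (K0 * (101 / 100) ^ (k - (m + 1)) * 4 ^ (m + 1))
      (lv (m + 1)) (lv (m + 1 + 1)) hq hq1 (by positivity) (by positivity) (by positivity)
      (by positivity) (by positivity) (lv_pos _).le (lv_mono (by omega)) hm h0 hp
    refine PB3_mono hq hq1 (by positivity) (by positivity) ?_ ?_ this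
    · rw [pow_succ]
      have : (0 : ℝ) < 64 ^ m := by positivity
      linarith
    · rw [show k - m = k - (m + 1) + 1 by omega, pow_succ, pow_succ]
      have : 0 ≤ K0 * (101 / 100) ^ (k - (m + 1)) * 4 ^ m := by positivity
      linarith

end Pool.Agent.H86.ND
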